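import Pool.Agent.R976.AdderLower

set_option autoImplicit false

open MeasureTheory ProbabilityTheory Filter Topology

namespace Pool.Agent.Results.MP_a2947a_pr.GrowthConstants

open Pool.Agent.R976.Adder

/-! ### numerics -/

lemma exp_pow_lb (a : ℝ) (n : ℕ) (_ : 0 ≤ a) (h : a < 2.7182818283 ^ n) : a < Real.exp n := by
  have h1 := Real.exp_one_gt_d9
  have h2 : (2.7182818283 : ℝ) ^ n ≤ Real.exp 1 ^ n := pow_le_pow_left₀ (by norm_num) h1.le n
  rw [← Real.exp_nat_mul, mul_one] at h2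
  linarith

lemma e18 : (6 : ℝ) < Real.exp 1.8 := by
  have h : ((6:ℝ)) ^ 5 < Real.exp 1.8 ^ 5 := by
    rw [← Real.exp_nat_mul]
    have : ((5 : ℕ) : ℝ) * 1.8 = (9 : ℕ) := by norm_num
    rw [this]
    exact exp_pow_lb _ _ (by norm_num) (by norm_num)
  exact lt_of_pow_lt_pow_left₀ 5 (Real.exp_pos _).le h

lemma e14 : (2 : ℝ) < Real.exp 1.4 := by
  have h : ((2:ℝ)) ^ 5 < Real.exp 1.4 ^ 5 := by
    rw [← Real.exp_nat_mul]
    have : ((5 : ℕ) : ℝ) * 1.4 = (7 : ℕ) := by norm_num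
    rw [this]
    exact exp_pow_lb _ _ (by norm_num) (by norm_num)
  exact lt_of_pow_lt_pow_left₀ 5 (Real.exp_pos _).le h

lemma e22 : (8.8 : ℝ) < Real.exp 2.2 := by
  have h : ((8.8:ℝ)) ^ 5 < Real.exp 2.2 ^ 5 := by
    rw [← Real.exp_nat_mul]
    have : ((5 : ℕ) : ℝ) * 2.2 = (11 : ℕ) := by norm_num
    rw [this]
    exact exp_pow_lb _ _ (by norm_num) (by norm_num)
  exact lt_of_pow_lt_pow_left₀ 5 (Real.exp_pos _).le h

lemma e26 : (40 / 3 : ℝ) < Real.exp 2.6 := by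
  have h : ((40/3:ℝ)) ^ 5 < Real.exp 2.6 ^ 5 := by
    rw [← Real.exp_nat_mul]
    have : ((5 : ℕ) : ℝ) * 2.6 = (13 : ℕ) := by norm_num
    rw [this]
    exact exp_pow_lb _ _ (by norm_num) (by norm_num)
  exact lt_of_pow_lt_pow_left₀ 5 (Real.exp_pos _).le h

lemma e04 : √2 < Real.exp 0.4 := by
  rw [Real.sqrt_lt' (Real.exp_pos _)]
  have h : ((2:ℝ)) ^ 5 < (Real.exp 0.4 ^ 2) ^ 5 := by
    rw [← Real.exp_nat_mul, ← Real.exp_nat_mul]
    have : ((5 : ℕ) : ℝ) * (((2 : ℕ) : ℝ) * 0.4) = (4 : ℕ) := by norm_num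
    rw [this]
    exact exp_pow_lb _ _ (by norm_num) (by norm_num)
  exact lt_of_pow_lt_pow_left₀ 5 (by positivity) h

lemma e03 : Real.exp 0.3 < √2 := by
  rw [Real.lt_sqrt (Real.exp_pos _).le, ← Real.exp_nat_mul]
  have h1 := Real.exp_one_lt_d9
  have h : (Real.exp (((2 : ℕ) : ℝ) * 0.3)) ^ 5 < (2:ℝ) ^ 5 := by
    rw [← Real.exp_nat_mul]
    have : ((5 : ℕ) : ℝ) * (((2 : ℕ) : ℝ) * 0.3) = ((3 : ℕ) : ℝ) * 1 := by norm_num
    rw [this, Real.exp_nat_mul]
    calc Real.exp 1 ^ 3 ≤ 2.7182818286 ^ 3 := pow_le_pow_left₀ (Real.exp_pos _).le h1.le 3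
      _ < 2 ^ 5 := by norm_num
  exact lt_of_pow_lt_pow_left₀ 5 (by norm_num) h

lemma sqrt2_pow_sq (m : ℕ) : (√2 ^ m) * (√2 ^ m) = (2:ℝ) ^ m := by
  rw [← mul_pow, Real.mul_self_sqrt (by norm_num)]

/-! ### the weights -/

/-- numerators of the weights for `m ≥ 4` -/
noncomputable def y : ℕ → ℝ
  | 0 => 1
  | 1 => 5 / 3
  | 2 => 32 / 15
  | 3 => 35 / 12
  | 4 => 51 / 10
  | (j + 5) => 7 / 16 * 2 ^ (j + 5)

lemma y_pos : ∀ j, 0 < y j
  | 0 => by norm_num [y]
  | 1 => by norm_num [y]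
  | 2 => by norm_num [y]
  | 3 => by norm_num [y]
  | 4 => by norm_num [y]
  | (j + 5) => by unfold y; positivity

lemma four_le_two_pow : ∀ j : ℕ, 4 * ((j : ℝ) + 5) ≤ 2 ^ (j + 5)
  | 0 => by norm_num
  | (j + 1) => by
    have := four_le_two_pow j
    have h : (2:ℝ) ^ (j + 1 + 5) = 2 * 2 ^ (j + 5) := by ring
    rw [h]
    push_cast
    have : (0:ℝ) ≤ j := Nat.cast_nonneg j
    linarith

lemma y_ineq (j : ℕ) : y (j + 1) / 2 ^ j + j / y j ≤ 5 / 3 := by
  match j with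
  | 0 => norm_num [y]
  | 1 => norm_num [y]
  | 2 => norm_num [y]
  | 3 => norm_num [y]
  | 4 => norm_num [y]
  | (j + 5) =>
    have h1 : y (j + 5 + 1) / 2 ^ (j + 5) = 7 / 8 := by
      show 7 / 16 * 2 ^ (j + 1 + 5) / 2 ^ (j + 5) = (7 / 8 : ℝ)
      have h : (2:ℝ) ^ (j + 1 + 5) = 2 * 2 ^ (j + 5) := by ring
      rw [h]
      field_simp
      norm_num
    have h2 : ((j + 5 : ℕ) : ℝ) / y (j + 5) ≤ 4 / 7 := by
      show ((j + 5 : ℕ) : ℝ) / (7 / 16 * 2 ^ (j + 5)) ≤ 4 / 7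
      have := four_le_two_pow j
      rw [div_le_div_iff₀ (by positivity) (by norm_num)]
      push_cast
      linarith
    rw [h1]
    linarith

/-- the weights for `m = 3` -/
noncomputable def x3 : ℕ → ℝ
  | 1 => 22 / 35
  | 2 => 14 / 15
  | 3 => 2
  | _ => 1

/-- the weights for `m = 2` -/
noncomputable def x2 : ℕ → ℝ
  | 2 => 2
  | _ => 1

/-- The existence of weights with a good constant. -/
lemma weights (m : ℕ) (hm : 1 ≤ m) : ∃ (x : ℕ → ℝ) (L : ℝ), (∀ j, 0 < x j) ∧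
    (∀ j ≤ m, ((2:ℝ) ^ (m - j) - 1) * x (j + 1) + j / x j ≤ L) ∧
    2 * L < Real.exp (0.4 * m + 1) ∧ 2 * L ≤ 10 / 3 * √2 ^ m := by
  have hs2 : √2 * √2 = 2 := Real.mul_self_sqrt (by norm_num)
  have hs0 : 0 < √2 := by positivity
  have hs14 : 1.4 < √2 := by
    rw [Real.lt_sqrt (by norm_num)]; norm_num
  rcases Nat.lt_or_ge m 4 with h | h
  · interval_cases m
    · refine ⟨fun _ => 1, 1, fun _ => one_pos, ?_, ?_, ?_⟩
      · intro j hj
        interval_cases j <;> norm_num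
      · have := e14
        norm_num at this ⊢
        exact this
      · norm_num; linarith
    · refine ⟨x2, 3, ?_, ?_, ?_, ?_⟩
      · intro j
        match j with
        | 0 => norm_num [x2]
        | 1 => norm_num [x2]
        | 2 => norm_num [x2]
        | (j + 3) => show (0:ℝ) < 1; norm_num
      · intro j hj
        interval_cases j <;> norm_num [x2]
      · have := e18
        norm_num at this ⊢
        exact this
      · rw [sq, hs2]; norm_num
    · refine ⟨x3, 4.4, ?_, ?_, ?_, ?_⟩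
      · intro j
        match j with
        | 0 => norm_num [x3]
        | 1 => norm_num [x3]
        | 2 => norm_num [x3]
        | 3 => norm_num [x3]
        | (j + 4) => show (0:ℝ) < 1; norm_num
      · intro j hj
        interval_cases j <;> norm_num [x3]
      · have := e22
        norm_num at this ⊢
        exact this
      · rw [pow_succ, sq, hs2]; norm_num at hs14 ⊢; linarith
  · refine ⟨fun j => y j / √2 ^ m, 5 / 3 * √2 ^ m, fun j => div_pos (y_pos j) (by positivity), ?_, ?_, ?_⟩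
    · intro j hj
      have hp : 0 < √2 ^ m := by positivity
      have h1 : ((2:ℝ) ^ (m - j) - 1) * (y (j + 1) / √2 ^ m) ≤ y (j + 1) / 2 ^ j * √2 ^ m := by
        have h2 : (2:ℝ) ^ (m - j) = 2 ^ m / 2 ^ j := by
          rw [eq_div_iff (by positivity), ← pow_add, Nat.sub_add_cancel hj]
        have h3 : (2:ℝ) ^ m / 2 ^ j * (y (j + 1) / √2 ^ m) = y (j + 1) / 2 ^ j * √2 ^ m := by
          rw [← sqrt2_pow_sq m]
          field_simp
        have h4 : 0 < y (j + 1) / √2 ^ m := div_pos (y_pos _) hp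
        rw [h2, sub_mul, h3]
        linarith
      have h2 : (j : ℝ) / (y j / √2 ^ m) = j / y j * √2 ^ m := by
        have := y_pos j
        field_simp
      simp only
      rw [h2]
      have h3 := mul_le_mul_of_nonneg_right (y_ineq j) hp.le
      rw [add_mul] at h3
      linarith
    · have key : ∀ k : ℕ, 10 / 3 * √2 ^ (k + 4) < Real.exp (0.4 * ((k + 4 : ℕ) : ℝ) + 1) := by
        intro k
        induction k with
        | zero =>
          have h1 : √2 ^ (0 + 4) = 4 := by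
            have : √2 ^ (0 + 4) = (√2 * √2) * (√2 * √2) := by ring
            rw [this, hs2]; norm_num
          rw [h1]
          have := e26
          norm_num at this ⊢
          exact this
        | succ k ih =>
          have h1 : √2 ^ (k + 1 + 4) = √2 ^ (k + 4) * √2 := by ring
          have h2 : Real.exp (0.4 * ((k + 1 + 4 : ℕ) : ℝ) + 1) =
              Real.exp (0.4 * ((k + 4 : ℕ) : ℝ) + 1) * Real.exp 0.4 := by
            rw [← Real.exp_add]; congr 1; push_cast; ring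
          rw [h1, h2, ← mul_assoc]
          exact mul_lt_mul'' ih e04 (by positivity) hs0.le
      obtain ⟨k, rfl⟩ := Nat.exists_eq_add_of_le h
      have := key k
      rw [add_comm k 4] at this
      linarith
    · linarith

/-- **The growth constants of the moments of the Ulam–Kac adder.** Let `U n` be independent and
uniform on `{0, …, n}`, `X 0 = 1` and `X (n + 1) = X n + X (U n)`. For every `m ≥ 1`,
`exp(0.3 m) √n ≤ log E[X_n ^ m] ≤ exp(0.4 m + 1) √n` for all large `n`, and the constant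
`c = lim log E[X_n ^ m] / √n` satisfies `0.3 m < log c < 0.4 m + 1` and, more precisely,
`2 √(2 ^ m - 1) ≤ c ≤ (10 / 3) 2 ^ (m / 2)`. -/
theorem result {Ω : Type*} [MeasurableSpace Ω] (P : Measure Ω) [IsProbabilityMeasure P]
    (U : (n : ℕ) → Ω → Fin (n + 1)) (hmeas : ∀ n, Measurable (U n)) (hind : iIndepFun U P)
    (hunif : ∀ (n : ℕ) (k : Fin (n + 1)), P.real {ω | U n ω = k} = 1 / ((n : ℝ) + 1))
    (X : ℕ → Ω → ℝ) (h0 : ∀ ω, X 0 ω = 1) (hsucc : ∀ n ω, X (n + 1) ω = X n ω + X (U n ω) ω)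
    (m : ℕ) (hm : 1 ≤ m) :
    (∀ᶠ n : ℕ in atTop, Real.exp (0.3 * m) * √(n : ℝ) ≤ Real.log (∫ ω, X n ω ^ m ∂P) ∧
      Real.log (∫ ω, X n ω ^ m ∂P) ≤ Real.exp (0.4 * m + 1) * √(n : ℝ)) ∧
    ∀ c : ℝ, Tendsto (fun n : ℕ => Real.log (∫ ω, X n ω ^ m ∂P) / √(n : ℝ)) atTop (𝓝 c) →
      (0.3 * m < Real.log c ∧ Real.log c < 0.4 * m + 1) ∧
      (2 * √(2 ^ m - 1) ≤ c ∧ c ≤ 10 / 3 * √2 ^ m) := by
  have S : Setup P U X := ⟨hmeas, hind, hunif, h0, hsucc⟩
  have ht : Tendsto (fun n : ℕ => √(n : ℝ)) atTop atTop :=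
    Real.tendsto_sqrt_atTop.comp tendsto_natCast_atTop_atTop
  -- lower bounds
  have hlow : ∀ γ : ℝ, 0 < γ → γ < 2 * √(2 ^ m - 1) →
      ∀ᶠ n : ℕ in atTop, γ * √(n : ℝ) ≤ Real.log (∫ ω, X n ω ^ m ∂P) := by
    intro γ hγ hγA
    obtain ⟨γ', h1, h2⟩ := exists_between hγA
    have hγ' : 0 < γ' := hγ.trans h1
    have hA : (0:ℝ) ≤ 2 ^ m - 1 := by
      have : (1:ℝ) ≤ 2 ^ m := one_le_pow₀ (by norm_num)
      linarith
    have h3 : γ' ^ 2 < 4 * (2 ^ m - 1) := by
      have h4 : γ' ^ 2 < (2 * √(2 ^ m - 1)) ^ 2 := pow_lt_pow_left₀ h2 hγ'.le (by norm_num)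
      rw [mul_pow, Real.sq_sqrt hA] at h4
      linarith
    obtain ⟨κ, hκ, h5⟩ := lower S m γ' hγ' h3
    have h6 := ht.eventually_ge_atTop (-Real.log κ / (γ' - γ))
    filter_upwards [h5, h6] with n h7 h8
    have h9 := Real.log_le_log (by positivity) h7
    rw [Real.log_mul hκ.ne' (Real.exp_pos _).ne', Real.log_exp] at h9
    rw [div_le_iff₀ (by linarith)] at h8
    nlinarith
  -- upper bounds
  obtain ⟨x, L, hx, hL, hL1, hL2⟩ := weights m hm
  have hup : ∀ Λ : ℝ, 2 * L < Λ →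
      ∀ᶠ n : ℕ in atTop, Real.log (∫ ω, X n ω ^ m ∂P) ≤ Λ * √(n : ℝ) := by
    intro Λ hΛ
    obtain ⟨Λ', h1, h2⟩ := exists_between hΛ
    obtain ⟨C, hC, h5⟩ := upper S m x hx L (Λ' / 2) hL (by linarith)
    have h6 := ht.eventually_ge_atTop (Real.log C / (Λ - Λ'))
    filter_upwards [h5, h6] with n h7 h8
    have h9 := Real.log_le_log (lt_of_lt_of_le one_pos (one_le_moment S n m)) h7
    rw [Real.log_mul hC.ne' (Real.exp_pos _).ne', Real.log_exp] at h9
    rw [div_le_iff₀ (by linarith)] at h8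
    have h10 : 2 * (Λ' / 2) * √(n : ℝ) = Λ' * √(n : ℝ) := by ring
    rw [h10] at h9
    nlinarith
  -- comparison of the constants
  have hA1 : (1:ℝ) ≤ 2 ^ m - 1 := by
    have : (2:ℝ) ^ 1 ≤ 2 ^ m := pow_le_pow_right₀ (by norm_num) hm
    linarith
  have hlt : Real.exp (0.3 * m) < 2 * √(2 ^ m - 1) := by
    have h1 : Real.exp (0.3 * m) ≤ √2 ^ m := by
      have : Real.exp (0.3 * m) = Real.exp 0.3 ^ m := by
        rw [← Real.exp_nat_mul]; congr 1; ring
      rw [this]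
      exact pow_le_pow_left₀ (Real.exp_pos _).le e03.le m
    have h2 : √2 ^ m < 2 * √(2 ^ m - 1) := by
      have h3 : (√2 ^ m) ^ 2 < (2 * √(2 ^ m - 1)) ^ 2 := by
        rw [mul_pow, Real.sq_sqrt (by linarith), sq (√2 ^ m), sqrt2_pow_sq]
        linarith
      exact lt_of_pow_lt_pow_left₀ 2 (by positivity) h3
    linarith
  refine ⟨?_, ?_⟩
  · filter_upwards [hlow _ (Real.exp_pos _) hlt, hup _ hL1] with n h1 h2
    exact ⟨h1, h2⟩
  · intro c hc
    have hpos : ∀ᶠ n : ℕ in atTop, 0 < √(n : ℝ) := ht.eventually_gt_atTop 0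
    have hclow : 2 * √(2 ^ m - 1) ≤ c := by
      refine le_of_forall_lt fun γ hγ => ?_
      rcases le_or_gt γ 0 with h | h
      · obtain ⟨γ', h1, h2⟩ := exists_between (show (0:ℝ) < 2 * √(2 ^ m - 1) by
          have := Real.sqrt_pos.2 (lt_of_lt_of_le one_pos hA1); positivity)
        have : γ' ≤ c := by
          refine ge_of_tendsto hc ?_
          filter_upwards [hlow γ' h1 h2, hpos] with n h3 h4
          rwa [le_div_iff₀ h4]
        linarith
      · obtain ⟨γ', h1, h2⟩ := exists_between hγ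
        have : γ' ≤ c := by
          refine ge_of_tendsto hc ?_
          filter_upwards [hlow γ' (h.trans h1) h2, hpos] with n h3 h4
          rwa [le_div_iff₀ h4]
        linarith
    have hcup : c ≤ 2 * L := by
      refine le_of_forall_gt_imp_ge_of_dense fun Λ hΛ => ?_
      refine le_of_tendsto hc ?_
      filter_upwards [hup Λ hΛ, hpos] with n h3 h4
      rwa [div_le_iff₀ h4]
    have hc0 : 0 < c := lt_of_lt_of_le (Real.exp_pos _) (hlt.le.trans hclow)
    refine ⟨⟨?_, ?_⟩, hclow, hcup.trans hL2⟩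
    · rw [Real.lt_log_iff_exp_lt hc0]; linarith
    · rw [Real.log_lt_iff_lt_exp hc0]; linarith

end Pool.Agent.Results.MP_a2947a_pr.GrowthConstants
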